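import Pool.Agent.N356.SP.Defs

/-! # Integrals of products of class functions -/

set_option autoImplicit false

namespace Pool.Agent.N342.LS

open Finset Pool.Agent.H384R3.SPk Pool.Agent.N356.SP

/-- the trigonometric polynomial of a list -/
noncomputable def ev (L : List (ℝ × ℤ)) (x : ℝ) : ℂ := (L.map fun p => (p.1 : ℂ) * e p.2 x).sum

/-- functions of class `c` -/
def Cls (m : ℕ) (c : ZMod m) (P : ℝ → ℂ) : Prop :=
  ∃ L : List (ℝ × ℤ), (∀ p ∈ L, 0 ≤ p.1 ∧ ((p.2 : ℤ) : ZMod m) = c) ∧ ∀ x, P x = ev L x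

lemma ev_nil (x : ℝ) : ev [] x = 0 := rfl

lemma ev_cons (p : ℝ × ℤ) (L : List (ℝ × ℤ)) (x : ℝ) :
    ev (p :: L) x = (p.1 : ℂ) * e p.2 x + ev L x := by
  simp [ev]

lemma ev_append (L M : List (ℝ × ℤ)) (x : ℝ) : ev (L ++ M) x = ev L x + ev M x := by
  simp [ev]

lemma ev_cont (L : List (ℝ × ℤ)) : Continuous (ev L) := by
  induction L with
  | nil =>
    have : ev [] = fun _ => (0 : ℂ) := by
      funext x
      exact ev_nil x
    rw [this]
    exact continuous_const
  | cons p L ih =>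
    have : ev (p :: L) = fun x => (p.1 : ℂ) * e p.2 x + ev L x := by
      funext x
      exact ev_cons p L x
    rw [this]
    exact (continuous_const.mul (C.e_cont p.2)).add ih

lemma ev_int (L : List (ℝ × ℤ)) : ∫ x in (0:ℝ)..1, ev L x =
    (((L.map fun p => p.1 * (if p.2 = 0 then 1 else 0)).sum : ℝ) : ℂ) := by
  induction L with
  | nil => simp [ev]
  | cons p L ih =>
    have : ev (p :: L) = fun x => (p.1 : ℂ) * e p.2 x + ev L x := by
      funext x
      exact ev_cons p L x
    have h1 : IntervalIntegrable (fun x => (p.1 : ℂ) * e p.2 x) MeasureTheory.volume 0 1 :=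
      (continuous_const.mul (C.e_cont p.2)).intervalIntegrable _ _
    have h2 : IntervalIntegrable (fun x => ev L x) MeasureTheory.volume 0 1 :=
      (ev_cont L).intervalIntegrable _ _
    rw [this]
    simp only
    rw [intervalIntegral.integral_add h1 h2, ih, intervalIntegral.integral_const_mul, C.ortho]
    rw [List.map_cons, List.sum_cons]
    push_cast
    congr 1
    split_ifs <;> simp

variable {m : ℕ} {c d : ZMod m} {P Q : ℝ → ℂ}

lemma cls_zero (c : ZMod m) : Cls m c fun _ => 0 := ⟨[], by simp, fun x => (ev_nil x).symm⟩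

lemma cls_one : Cls m 0 fun _ => 1 := by
  refine ⟨[(1, 0)], by simp, fun x => ?_⟩
  simp [ev, C.e_zero]

lemma cls_single {a : ℝ} (ha : 0 ≤ a) {n : ℤ} (hn : ((n : ℤ) : ZMod m) = c) :
    Cls m c fun x => (a : ℂ) * e n x := by
  refine ⟨[(a, n)], by simp [ha, hn], fun x => ?_⟩
  simp [ev]

lemma cls_add (hP : Cls m c P) (hQ : Cls m c Q) : Cls m c fun x => P x + Q x := by
  obtain ⟨L, h1, h2⟩ := hP
  obtain ⟨M, h3, h4⟩ := hQ
  refine ⟨L ++ M, fun p hp => ?_, fun x => ?_⟩
  · rcases List.mem_append.1 hp with h | h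
    · exact h1 p h
    · exact h3 p h
  · simp only
    rw [ev_append, h2, h4]

lemma cls_sum {ι : Type*} (s : Finset ι) (F : ι → ℝ → ℂ) (h : ∀ i ∈ s, Cls m c (F i)) :
    Cls m c fun x => ∑ i ∈ s, F i x := by
  classical
  induction s using Finset.induction_on with
  | empty => simpa using cls_zero c
  | insert i s hi ih =>
    have h1 := cls_add (h i (mem_insert_self _ _)) (ih fun j hj => h j (mem_insert_of_mem hj))
    refine (congrArg (Cls m c) ?_).mp h1
    funext x
    rw [sum_insert hi]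

/-- multiplication with one term -/
lemma cls_mul_single {a : ℝ} (ha : 0 ≤ a) {n : ℤ} (hn : ((n : ℤ) : ZMod m) = d)
    (hP : Cls m c P) : Cls m (c + d) fun x => P x * ((a : ℂ) * e n x) := by
  obtain ⟨L, h1, h2⟩ := hP
  refine ⟨L.map fun p => (p.1 * a, p.2 + n), ?_, fun x => ?_⟩
  · intro p hp
    obtain ⟨q, hq, rfl⟩ := List.mem_map.1 hp
    refine ⟨mul_nonneg (h1 q hq).1 ha, ?_⟩
    simp only
    push_cast
    rw [(h1 q hq).2, hn]
  · simp only
    rw [h2]
    unfold ev
    rw [List.map_map, ← List.sum_map_mul_right]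
    congr 1
    refine List.map_congr_left fun p _ => ?_
    simp only [Function.comp]
    rw [show e (p.2 + n) x = e p.2 x * e n x from C.e_add _ _ x]
    push_cast
    ring

lemma cls_mul (hP : Cls m c P) (hQ : Cls m d Q) : Cls m (c + d) fun x => P x * Q x := by
  obtain ⟨M, h3, h4⟩ := hQ
  induction M generalizing Q with
  | nil =>
    refine (congrArg (Cls m (c + d)) ?_).mp (cls_zero (c + d))
    funext x
    rw [h4, ev_nil, mul_zero]
  | cons p M ih =>
    have h5 := ih (Q := ev M) (fun q hq => h3 q (List.mem_cons_of_mem _ hq)) fun x => rfl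
    have h6 := cls_mul_single (h3 p List.mem_cons_self).1 (h3 p List.mem_cons_self).2 hP
    refine (congrArg (Cls m (c + d)) ?_).mp (cls_add h6 h5)
    funext x
    rw [h4, ev_cons]
    ring

lemma cls_cosp {g : ℤ →₀ ℝ} (hg0 : ∀ n, 0 ≤ g n)
    (hg : ∀ n ∈ g.support, ((n : ℤ) : ZMod m) = 0) :
    Cls m 0 fun x => ((cosp g x : ℝ) : ℂ) := by
  have h1 : Cls m 0 fun x => ∑ n ∈ g.support, (((g n : ℝ) : ℂ) * e n x +
      ((g n : ℝ) : ℂ) * e (-n) x) := by
    refine cls_sum _ _ fun n hn => ?_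
    refine cls_add (cls_single (hg0 n) (hg n hn)) (cls_single (hg0 n) ?_)
    push_cast
    rw [hg n hn, neg_zero]
  refine (congrArg (Cls m 0) ?_).mp h1
  funext x
  unfold cosp
  rw [Finsupp.sum]
  push_cast
  refine sum_congr rfl fun n _ => ?_
  rw [← mul_add]
  congr 1
  have h2 : (2 : ℂ) * Complex.cos (2 * Real.pi * n * x) =
      Complex.exp (2 * Real.pi * n * x * Complex.I) + Complex.exp (-(2 * Real.pi * n * x) * Complex.I) := by
    rw [Complex.two_cos]
  rw [h2]
  unfold e C.e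
  congr 1
  · congr 1
    ring
  · congr 1
    push_cast
    ring

lemma cls_cl {f : ℤ →₀ ℝ} (hf0 : ∀ n, 0 ≤ f n) (c : ZMod m) : Cls m c fun x => cl m f c x := by
  have h1 : Cls m c fun x => ∑ n ∈ f.support, ((f n : ℝ) : ℂ) *
      ((if ((n : ℤ) : ZMod m) = c then e n x else 0) +
    (if ((-n : ℤ) : ZMod m) = c then e (-n) x else 0)) := by
    refine cls_sum _ _ fun n hn => ?_
    have h2 : ∀ k : ℤ, Cls m c fun x => ((f n : ℝ) : ℂ) *
        (if ((k : ℤ) : ZMod m) = c then e k x else 0) := by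
      intro k
      by_cases hk : ((k : ℤ) : ZMod m) = c
      · simp only [if_pos hk]
        exact cls_single (hf0 n) hk
      · simp only [if_neg hk, mul_zero]
        exact cls_zero c
    refine (congrArg (Cls m c) ?_).mp (cls_add (h2 n) (h2 (-n)))
    funext x
    rw [mul_add]
  exact h1

lemma cls_pow (hP : Cls m 0 P) (i : ℕ) : Cls m 0 fun x => P x ^ i := by
  induction i with
  | zero => simpa using (cls_one (m := m))
  | succ i ih =>
    have h := cls_mul ih hP
    rw [add_zero] at h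
    simpa only [pow_succ] using h

lemma cls_prod {f : ℤ →₀ ℝ} (hf0 : ∀ n, 0 ≤ f n) (U : Multiset (ZMod m)) :
    Cls m U.sum fun x => (U.map fun c => cl m f c x).prod := by
  induction U using Multiset.induction_on with
  | empty => simpa using (cls_one (m := m))
  | cons a U ih =>
    have h := cls_mul (cls_cl hf0 a) ih
    simpa only [Multiset.map_cons, Multiset.prod_cons, Multiset.sum_cons] using h

/-- LS7b -/
theorem J_spec (m : ℕ) (g f : ℤ →₀ ℝ) (hg0 : ∀ n, 0 ≤ g n) (hf0 : ∀ n, 0 ≤ f n)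
    (hg : ∀ n ∈ g.support, ((n : ℤ) : ZMod m) = 0) (i : ℕ) (U : Multiset (ZMod m)) :
    ∃ r : ℝ, 0 ≤ r ∧ (U.sum ≠ 0 → r = 0) ∧
      (∫ x in (0:ℝ)..1, ((cosp g x : ℝ) : ℂ) ^ i * (U.map fun c => cl m f c x).prod) = (r : ℂ) := by
  have h := cls_mul (cls_pow (cls_cosp hg0 hg) i) (cls_prod (m := m) hf0 U)
  rw [zero_add] at h
  obtain ⟨L, h1, h2⟩ := h
  refine ⟨(L.map fun p => p.1 * (if p.2 = 0 then 1 else 0)).sum, ?_, ?_, ?_⟩
  · refine List.sum_nonneg fun y hy => ?_
    obtain ⟨p, hp, rfl⟩ := List.mem_map.1 hy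
    refine mul_nonneg (h1 p hp).1 ?_
    split_ifs <;> norm_num
  · intro hU
    refine List.sum_eq_zero fun y hy => ?_
    obtain ⟨p, hp, rfl⟩ := List.mem_map.1 hy
    rw [if_neg, mul_zero]
    intro h0
    apply hU
    rw [← (h1 p hp).2, h0]
    simp
  · rw [← ev_int]
    congr 1
    funext x
    exact h2 x

end Pool.Agent.N342.LS
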